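import Pool.Agent.V11298.SR.Lgd

/-!
# MP_78b682_nt: logarithmic correlations of the randomly perturbed Liouville function

The value `λ(m)` is replaced by `λ(m + t m)`, where `t m` is one of the `W` numbers `0, …, W - 1`; the
index `i : Fin X` stands for `m = i + 1`.
-/

set_option autoImplicit false

open Finset

namespace Pool.Agent.Results.MP_78b682_nt.PerturbedLogarithmic

/-- The Liouville function. -/
noncomputable def lio (n : ℕ) : ℝ := (-1) ^ ArithmeticFunction.cardFactors n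

/-- The perturbed Liouville function: `λ(m + t m)` for `1 ≤ m ≤ X`, and `0` elsewhere; the index
`i : Fin X` stands for `m = i + 1`. -/
noncomputable def pert {X W : ℕ} (t : Fin X → Fin W) (m : ℕ) : ℝ :=
  if h : 1 ≤ m ∧ m ≤ X then lio (m + (t ⟨m - 1, by omega⟩ : ℕ)) else 0

theorem lio_le (n : ℕ) : |lio n| ≤ 1 := by
  unfold lio
  simp

theorem lio_eq : (fun n => ((Pool.Agent.H376R2.MR.lam n : ℤ) : ℂ)) =
    fun n => ((lio n : ℝ) : ℂ) := by
  funext n
  simp [lio, Pool.Agent.H376R2.MR.lam]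

theorem dual_lio : Pool.Agent.V11298.SR.WinDual (fun n => ((lio n : ℝ) : ℂ)) := by
  rw [← lio_eq]
  exact Pool.Agent.V11298.SR.dual_of_expo Pool.Agent.TH823.MRS.expo_lam

theorem card_of {X W : ℕ} {r : ℝ} {Q : (Fin X → Fin W) → Prop}
    {inst : DecidablePred fun t : Fin X → Fin W => ¬ Q t}
    (h : ((@Finset.filter (Fin X → Fin W) (fun t => ¬ Q t) inst univ).card : ℝ) ≤ r)
    (P : (Fin X → Fin W) → Prop) {inst' : DecidablePred fun t : Fin X → Fin W => ¬ P t}
    (hPQ : ∀ t, Q t → P t) :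
    ((@Finset.filter (Fin X → Fin W) (fun t => ¬ P t) inst' univ).card : ℝ) ≤ r := by
  refine le_trans (Nat.cast_le.2 (card_le_card fun t ht => ?_)) h
  exact mem_filter.2 ⟨mem_univ _, fun hq => (mem_filter.1 ht).2 (hPQ t hq)⟩

open Classical in
/-- **The logarithmic correlations of the randomly perturbed Liouville function.** For all but at most
`exp (-c (log X)²) W ^ X` of the `W ^ X` perturbations, all the logarithmic averages of products of values
at different shifts `0, …, h` are at most `ε`. -/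
theorem result (ε : ℝ) (hε : 0 < ε) :
    ∃ W₀ : ℕ, ∀ h : ℕ, ∃ c : ℝ, 0 < c ∧ ∀ W : ℕ, W₀ ≤ W → ∃ X₀ : ℕ, ∀ X : ℕ, X₀ ≤ X →
      ((univ.filter fun t : Fin X → Fin W => ¬ ∀ A : Finset ℕ, (∀ a ∈ A, a ≤ h) → A.Nonempty →
        |∑ n ∈ Icc 1 X, (1 / (n : ℝ)) * ∏ a ∈ A, pert t (n + a)| ≤ ε * Real.log X).card : ℝ) ≤
      Real.exp (-(c * Real.log X ^ 2)) * (W : ℝ) ^ X := by
  obtain ⟨W₀, hW₀⟩ := Pool.Agent.V11298.SR.chowla_log lio_le dual_lio hε
  refine ⟨W₀, fun h => ?_⟩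
  obtain ⟨c, hc, h1⟩ := hW₀ h
  refine ⟨c, hc, fun W hW => ?_⟩
  obtain ⟨X₀, hX₀⟩ := h1 W hW
  refine ⟨X₀, fun X hX => ?_⟩
  have h2 := hX₀ X hX
  refine card_of h2 _ ?_
  intro t ht A hA hAne
  exact ht A (fun a ha => mem_range.2 (Nat.lt_succ_of_le (hA a ha))) hAne

end Pool.Agent.Results.MP_78b682_nt.PerturbedLogarithmic
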